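import Pool.Agent.Helper8.TNG.Stmts

namespace Pool.Agent.Helper8.TNG

theorem st_SWP : ST_SWP := by
  intro S τ r r' hS hr
  constructor
  · intro hr'
    unfold Rb
    rw [decide_eq_decide, List.find?_append, List.find?_append]
    cases h : τ.find? (fun t => decide (t = Tok.o) || S t) with
    | some t => simp
    | none =>
      rw [Option.none_or, Option.none_or]
      have h1 : ∀ (u v : Tok), u ≠ Tok.o → v ≠ Tok.o →
          [u, v].find? (fun t => decide (t = Tok.o) || S t) ≠ some Tok.o := by
        intro u v hu hv hc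
        have := List.mem_of_find?_eq_some hc
        simp only [List.mem_cons, List.not_mem_nil, or_false] at this
        rcases this with h | h
        · exact hu h.symm
        · exact hv h.symm
      exact iff_of_false (h1 r' r hr' hr) (h1 r r' hr hr')
  · intro hr' ho
    subst hr'
    have key : ∀ v : List Tok, Rb S (τ ++ v) = (!(τ.any S) && Rb S v) := by
      intro v
      rw [Bool.eq_iff_iff, Bool.and_eq_true]
      unfold Rb
      rw [decide_eq_true_eq, decide_eq_true_eq, List.find?_append]
      cases h : τ.find? (fun t => decide (t = Tok.o) || S t) with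
      | some t =>
        have h1 := List.mem_of_find?_eq_some h
        have h2 := List.find?_some h
        have h3 : t ≠ Tok.o := fun h => ho (h ▸ h1)
        have h4 : S t = true := by simpa [h3] using h2
        have h5 : τ.any S = true := List.any_eq_true.2 ⟨t, h1, h4⟩
        simp [h3, h5]
      | none =>
        rw [List.find?_eq_none] at h
        have h5 : τ.any S = false := by
          rw [List.any_eq_false]
          intro t ht hst
          exact h t ht (by simp [hst])
        simp [h5]
    rw [key, key]
    constructor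
    · simp [Rb]
    · cases h : S r
      · simp [Rb, h, hr]
      · simp [Rb, h, hr]

theorem FF_1 (α β : Tok → Bool) (μ : Tok) (v : List Tok) (hv : Tok.o ∉ v) :
    ∀ Rβ hα hβ, fin α β μ false Rβ hα hβ v = Rβ := by
  induction v with
  | nil => intro Rβ hα hβ; rfl
  | cons p v ih =>
    have hp : p ≠ Tok.o := fun h => hv (by simp [h])
    have ih' := ih (fun h => hv (by simp [h]))
    intro Rβ hα hβ
    simp only [fin, hp, if_false]
    split_ifs
    · exact absurd (by assumption) (by simp)
    · exact ih' _ _ _
    · exact ih' _ _ _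

theorem FF_2 (α β : Tok → Bool) (μ : Tok) (v : List Tok) (hv : Tok.o ∉ v) :
    ∀ Rα hα Rβ hβ, (hβ = false → Rβ = true) → fin α β μ Rα Rβ hα hβ v = true →
      Rβ = true := by
  induction v with
  | nil => intro Rα hα Rβ hβ _ h; simpa [fin] using h
  | cons p v ih =>
    have hp : p ≠ Tok.o := fun h => hv (by simp [h])
    have hv' : Tok.o ∉ v := fun h => hv (by simp [h])
    have ih' := ih hv'
    intro Rα hα Rβ hβ h1 h2
    simp only [fin, hp, if_false] at h2
    split_ifs at h2 with h3 h4
    · rw [FF_1 α β μ v hv'] at h2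
      apply h1
      simpa using h2
    · rw [FF_1 α β μ v hv'] at h2
      exact h2
    · refine ih' _ _ _ _ ?_ h2
      intro h5
      apply h1
      rw [Bool.or_eq_false_iff] at h5
      exact h5.1

theorem FF_3 (α β : Tok → Bool) (μ : Tok) (v : List Tok) (hv : Tok.o ∉ v) (hm : μ ∈ v) :
    ∀ Rβ hα, fin α β μ true Rβ hα true v = false := by
  induction v with
  | nil => simp at hm
  | cons p v ih =>
    have hp : p ≠ Tok.o := fun h => hv (by simp [h])
    have hv' : Tok.o ∉ v := fun h => hv (by simp [h])
    intro Rβ hα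
    simp only [fin, hp, if_false]
    by_cases hpm : p = μ
    · simp only [hpm, if_true]
      rw [FF_1 α β μ v hv']
      rfl
    · simp only [hpm, if_false]
      rcases List.mem_cons.1 hm with h | h
      · exact absurd h.symm hpm
      · exact ih hv' h _ _

theorem FF_4 (α β : Tok → Bool) (μ : Tok) (v1 v2 : List Tok) (t : Tok) (hv1 : Tok.o ∉ v1)
    (hv2 : Tok.o ∉ v2) (hto : t ≠ Tok.o) (hm1 : μ ∉ v1) (htm : t ≠ μ) (hb : β t = true)
    (hm2 : μ ∈ v2) :
    ∀ Rβ hα hβ, fin α β μ true Rβ hα hβ (v1 ++ t :: v2) = false := by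
  induction v1 with
  | nil =>
    intro Rβ hα hβ
    simp only [List.nil_append, fin, hto, htm, if_false, hb, Bool.or_true]
    exact FF_3 α β μ v2 hv2 hm2 _ _
  | cons p v1 ih =>
    have hp : p ≠ Tok.o := fun h => hv1 (by simp [h])
    have hpm : p ≠ μ := fun h => hm1 (by simp [h])
    intro Rβ hα hβ
    simp only [List.cons_append, fin, hp, hpm, if_false]
    exact ih (fun h => hv1 (by simp [h])) (fun h => hm1 (by simp [h])) _ _ _

theorem st_FF : ST_FF := by
  intro α β μ _ _ v hv
  refine ⟨FF_1 α β μ v hv, FF_2 α β μ v hv, fun Rβ hα h => FF_3 α β μ v hv h Rβ hα, ?_⟩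
  intro Rβ hα hβ v1 v2 t h1 h2 h3 h4 h5
  subst h1
  have e1 : Tok.o ∉ v1 := fun h => hv (by simp [h])
  have e2 : Tok.o ∉ v2 := fun h => hv (by simp [h])
  have e3 : t ≠ Tok.o := fun h => hv (by simp [h])
  exact FF_4 α β μ v1 v2 t e1 e2 e3 h2 h3 h4 h5 Rβ hα hβ

end Pool.Agent.Helper8.TNG
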