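import Pool.Agent.Helper8.TNG.Stmts

namespace Pool.Agent.Helper8.TNG

open Finset

theorem st_FIN (hLOW : ST_LOW) (hSUM : ST_SUM) (hNUM : ST_NUM) (hPOS : ST_POS)
    (hCON : ST_CON) : ST_RES := by
  obtain ⟨B, M, K, K', hB, hM, hpos⟩ := hNUM
  obtain ⟨hlt, hcard, hmin⟩ := hPOS B M K K'
  have hxy : eX B M K K' ≠ eY B M K K' := by
    intro h
    have := congrArg tk h
    simp [tk, eX, eY] at this
  have hlow := hLOW (El B M K K') (elt B M K K') hlt (eX B M K K') (eY B M K K') hxy
    ((hmin _).2 (Or.inl rfl)) ((hmin _).2 (Or.inr rfl))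
  have hsum := hSUM B M K K' hB hM
  refine ⟨El B M K K', inferInstance, inferInstance, by omega, hCON B M K K' hM, ?_, ?_⟩
  · have : {p : El B M K K' | IsMin p} = {eX B M K K', eY B M K K'} := by
      ext p
      simp only [Set.mem_setOf_eq, Set.mem_insert_iff, Set.mem_singleton_iff]
      exact hmin p
    rw [this, Set.ncard_pair hxy]
  · have h1 : ((Fintype.card (El B M K K') - 2 : ℕ) : ℝ) <
        ∑ l ∈ Finset.univ \ {eX B M K K', eY B M K K'}, sv B M K K' l := by
      refine lt_of_lt_of_le ?_ hsum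
      have h2 : ((Fintype.card (El B M K K') - 2 : ℕ) : ℝ) =
          ((B : ℝ) + 2 + 1 + K + K') + ((M : ℝ) + 2) := by
        rw [hcard]
        have : B + M + K + K' + 7 - 2 = B + 2 + 1 + K + K' + (M + 2) := by omega
        rw [this]
        push_cast
        ring
      rw [h2]
      linarith
    have h3 : (0 : ℝ) < ((Fintype.card (El B M K K') - 2).factorial : ℝ) := by
      exact_mod_cast Nat.factorial_pos _
    have h4 : (((Fintype.card (El B M K K') - 2) *
        (Fintype.card (El B M K K') - 2).factorial : ℕ) : ℝ) <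
        (numTangled (El B M K K') : ℝ) := by
      refine lt_of_lt_of_le ?_ hlow
      rw [Nat.cast_mul, mul_comm]
      exact mul_lt_mul_of_pos_left h1 h3
    exact_mod_cast h4

end Pool.Agent.Helper8.TNG
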