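import Pool.Agent.Helper8.TNG.Stmts

namespace Pool.Agent.Helper8.TNG

theorem INS_eq {α : Type} (lt : α → α → Bool) (s : List α) (p : α) :
    ins lt s p = upd lt s p ++ [outc lt s p] := by
  induction s generalizing p with
  | nil => rfl
  | cons r s ih =>
    simp only [ins, upd, outc]
    split_ifs
    · rw [ih]; rfl
    · rw [ih]; rfl

theorem INS_perm {α : Type} (lt : α → α → Bool) (s : List α) (p : α) :
    (ins lt s p).Perm (p :: s) := by
  induction s generalizing p with
  | nil => exact List.Perm.refl _
  | cons r s ih =>
    simp only [ins]
    split_ifs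
    · exact List.Perm.cons p (ih r)
    · exact (List.Perm.cons r (ih p)).trans (List.Perm.swap p r s)

theorem INS_runperm {α : Type} (lt : α → α → Bool) (s w : List α) :
    (run lt s w).Perm (s ++ w) := by
  induction w generalizing s with
  | nil => simp [run]
  | cons p w ih =>
    have h1 := ih (ins lt s p)
    have h2 : run lt s (p :: w) = run lt (ins lt s p) w := rfl
    rw [h2]
    refine h1.trans ?_
    refine ((INS_perm lt s p).append_right w).trans ?_
    simp only [List.cons_append]
    exact List.perm_middle.symm

theorem INS_outapp {α : Type} (lt : α → α → Bool) (s t : List α) (p : α) :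
    outc lt (s ++ t) p = outc lt t (outc lt s p) := by
  induction s generalizing p with
  | nil => rfl
  | cons r s ih =>
    simp only [List.cons_append, outc]
    split_ifs <;> exact ih _

theorem INS_updapp {α : Type} (lt : α → α → Bool) (s t : List α) (p : α) :
    upd lt (s ++ t) p = upd lt s p ++ upd lt t (outc lt s p) := by
  induction s generalizing p with
  | nil => rfl
  | cons r s ih =>
    simp only [List.cons_append, upd, outc]
    split_ifs <;> simp [ih]

theorem INS_insapp {α : Type} (lt : α → α → Bool) (s t : List α) (p : α) :
    ins lt (s ++ t) p = upd lt s p ++ ins lt t (outc lt s p) := by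
  rw [INS_eq, INS_updapp, INS_outapp, List.append_assoc, ← INS_eq]

theorem INS_none {α : Type} (lt : α → α → Bool) (s : List α) (p : α)
    (h : ∀ r ∈ s, lt r p = false) : outc lt s p = p ∧ ins lt s p = s ++ [p] := by
  induction s with
  | nil => exact ⟨rfl, rfl⟩
  | cons r s ih =>
    have h1 : lt r p = false := h r (by simp)
    obtain ⟨h2, h3⟩ := ih (fun t ht => h t (by simp [ht]))
    simp [ins, outc, h1, h2, h3]

theorem st_INS : ST_INS := by
  intro α lt
  exact ⟨INS_eq lt, INS_perm lt, INS_runperm lt,
    fun s v w => by unfold run; rw [List.foldl_append], INS_none lt, INS_outapp lt,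
    INS_updapp lt, INS_insapp lt⟩

theorem st_MAP : ST_MAP := by
  intro α β lt lt' h hh
  have h1 : ∀ (s : List α) (p : α), outc lt' (s.map h) (h p) = h (outc lt s p) := by
    intro s
    induction s with
    | nil => intro p; rfl
    | cons r s ih =>
      intro p
      simp only [List.map_cons, outc, hh]
      split_ifs <;> exact ih _
  have h2 : ∀ (s : List α) (p : α), ins lt' (s.map h) (h p) = (ins lt s p).map h := by
    intro s
    induction s with
    | nil => intro p; rfl
    | cons r s ih =>
      intro p
      simp only [List.map_cons, ins, hh]
      split_ifs <;> simp [ih]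
  refine ⟨h1, h2, ?_⟩
  have h3 : ∀ (w s : List α), run lt' (s.map h) (w.map h) = (run lt s w).map h := by
    intro w
    induction w with
    | nil => intro s; rfl
    | cons p w ih =>
      intro s
      have e1 : run lt' (s.map h) ((p :: w).map h) =
        run lt' (ins lt' (s.map h) (h p)) (w.map h) := rfl
      have e2 : run lt s (p :: w) = run lt (ins lt s p) w := rfl
      rw [e1, e2, h2, ih]
  intro w
  exact h3 w []

end Pool.Agent.Helper8.TNG
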