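import Pool.Agent.Helper8.TNG.Stmts

namespace Pool.Agent.Helper8.TNG

theorem st_NUM : ST_NUM := by
  refine ⟨10 ^ 6, 10 ^ 4, 10 ^ 36, 10 ^ 61, by norm_num, by norm_num, ?_⟩
  norm_num

end Pool.Agent.Helper8.TNG
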