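import Pool.Agent.Helper8.TNG.Stmts

namespace Pool.Agent.Helper8.TNG

theorem PYZ_priv : Priv tlt Tok.x Tok.f where
  ne := by decide
  top := by decide
  bot := by decide
  cov := by decide

theorem PYZ_core (w : List Tok) (hy : Tok.y ∉ w) :
    w.filter core = del Tok.x Tok.f (del1 Tok.g w) := by
  unfold del del1
  rw [List.filter_filter]
  apply List.filter_congr
  intro t ht
  have : t ≠ Tok.y := fun h => hy (h ▸ ht)
  revert this
  clear ht
  revert t
  decide

theorem PYZ_count (w : List Tok) (t : Tok) (ht : t ≠ Tok.g) :
    (del1 Tok.g w).count t = w.count t := by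
  unfold del1
  rw [List.count_filter]
  simpa using ht

theorem PYZ_countd (w : List Tok) (t : Tok) (ht : t ≠ Tok.x) (ht' : t ≠ Tok.f) :
    (del Tok.x Tok.f w).count t = w.count t := by
  unfold del
  rw [List.count_filter]
  simp [ht, ht']

theorem PYZ_mem_del (w : List Tok) (hw : ∀ t ∈ w, t ≠ Tok.y ∧ t ≠ Tok.g) :
    ∀ t ∈ del Tok.x Tok.f w, core t = true := by
  intro t ht
  unfold del at ht
  rw [List.mem_filter] at ht
  obtain ⟨h1, h2⟩ := hw t ht.1
  have h3 := ht.2
  revert h1 h2 h3
  clear ht
  revert t
  decide

theorem PYZ_mem_dg (w : List Tok) (hy : Tok.y ∉ w) :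
    ∀ t ∈ del1 Tok.g w, t ≠ Tok.y ∧ t ≠ Tok.g := by
  intro t ht
  unfold del1 at ht
  rw [List.mem_filter] at ht
  refine ⟨fun h => hy (h ▸ ht.1), by simpa using ht.2⟩

/-- The outcome seen on the list without `f` and `g`. -/
theorem PYZ_out (hFLT : ST_FLT) (w : List Tok) (hy : Tok.y ∉ w) (l : Tok) :
    outc tlt (state tlt w) l = outc tlt (del1 Tok.f (state tlt (del1 Tok.g w))) l := by
  obtain ⟨h1, -, h3⟩ := hFLT Tok tlt Tok.g (by decide)
  obtain ⟨h4, -, -⟩ := hFLT Tok tlt Tok.f (by decide)
  rw [h1, h3 w, h4]
  · rfl
  · intro p hp
    have : p ≠ Tok.y := fun h => hy (h ▸ hp)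
    revert this
    clear hp
    revert p
    decide

theorem PYZ_any_perm (S : Tok → Bool) {s t : List Tok} (h : s.Perm t) : s.any S = t.any S := by
  rw [Bool.eq_iff_iff, List.any_eq_true, List.any_eq_true]
  constructor
  · rintro ⟨i, hi, hs⟩
    exact ⟨i, h.mem_iff.1 hi, hs⟩
  · rintro ⟨i, hi, hs⟩
    exact ⟨i, h.mem_iff.2 hi, hs⟩

theorem PYZ_ab : ∀ r : Tok, core r = true → tlt Tok.x r = false → r = Tok.a ∨ r = Tok.b := by
  decide

theorem st_PYZ (hINS : ST_INS) (hFLT : ST_FLT) (hNR : ST_NR) (hDEC : ST_DEC) (hDE2 : ST_DE2)
    (hMID : ST_MID) (hLST : ST_LST) (hFV : ST_FV) (hFF : ST_FF) (hSWP : ST_SWP)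
    (hTZE : ST_TZE) (hCIN : ST_CIN) : ST_PYZ := by
  obtain ⟨hins, hperm, hrperm, hrapp, hmin, hoapp, huapp, hiapp⟩ := hINS Tok tlt
  intro w hy hz hx ho he ha hE
  have hcore := PYZ_core w hy
  have hout := PYZ_out hFLT w hy Tok.z
  rw [hout]
  have hmem := PYZ_mem_dg w hy
  have hz' : Tok.z ∉ del1 Tok.g w := by
    intro h
    unfold del1 at h
    exact hz (List.mem_filter.1 h).1
  have hx' := PYZ_count w Tok.x (by decide)
  have ho' := PYZ_count w Tok.o (by decide)
  have he' := PYZ_count w Tok.e (by decide)
  have ha' := PYZ_count w Tok.a (by decide)
  rw [hx] at hx'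
  rw [ho] at ho'
  rw [he] at he'
  rw [ha] at ha'
  unfold SR
  rw [hcore]
  generalize del1 Tok.g w = v at *
  clear hout hcore hy hz hx ho he ha
  -- facts on the core part
  have hTperm : (state tlt (del Tok.x Tok.f v)).Perm (del Tok.x Tok.f v) := by
    have := hrperm [] (del Tok.x Tok.f v)
    simpa [state] using this
  have hTcore : ∀ t ∈ state tlt (del Tok.x Tok.f v), core t = true := fun t ht =>
    PYZ_mem_del v hmem t (hTperm.mem_iff.1 ht)
  have hco : (state tlt (del Tok.x Tok.f v)).count Tok.o = 1 := by
    rw [hTperm.count_eq, PYZ_countd v _ (by decide) (by decide), ho']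
  have hca : (state tlt (del Tok.x Tok.f v)).count Tok.a = 2 := by
    rw [hTperm.count_eq, PYZ_countd v _ (by decide) (by decide), ha']
  have hTo : Tok.o ∈ state tlt (del Tok.x Tok.f v) := by
    rw [← List.count_pos_iff]; omega
  have hTa : Tok.a ∈ state tlt (del Tok.x Tok.f v) := by
    rw [← List.count_pos_iff]; omega
  -- the general ending
  have hend : ∀ (T R : List Tok), (∀ t ∈ T, core t = true) → Tok.o ∈ T → Tok.a ∈ T →
      Rb KK T = false → (∀ r ∈ R, tlt r Tok.a = false) →
      tlt Tok.y (outc tlt (T ++ R) Tok.z) = true := by
    intro T R h1 h2 h3 h4 h5
    rw [hoapp, (hTZE T h1).2.2.1 h2 h3 h4, (hmin R Tok.a h5).1]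
    decide
  have hA : del1 Tok.f (state tlt v) = state tlt (del Tok.x Tok.f v) ++ [Tok.x] →
      ¬ Rb KK (state tlt (del Tok.x Tok.f v)) = true →
      tlt Tok.y (outc tlt (del1 Tok.f (state tlt v)) Tok.z) = true := by
    intro h1 h2
    rw [h1]
    refine hend _ _ hTcore hTo hTa (by simpa using h2) ?_
    intro r hr
    simp only [List.mem_singleton] at hr
    subst hr
    decide
  -- letters of the word
  have hletter : ∀ t ∈ del Tok.x Tok.f v, t = Tok.o ∨ t = Tok.a ∨ t = Tok.b ∨ t = Tok.c ∨
      t = Tok.e := by
    intro t ht
    have h1 := PYZ_mem_del v hmem t ht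
    have h2 : t ≠ Tok.z := by
      rintro rfl
      unfold del at ht
      exact hz' (List.mem_filter.1 ht).1
    revert h1 h2
    clear ht
    revert t
    decide
  constructor
  · intro hSR hcost
    rcases hDEC Tok Tok.f v hE with h0 | ⟨w1, p, hv, hp, hw1⟩ |
      ⟨w1, p, q, w3, hv, hp, hq, hw1, hw3⟩
    · -- no empty gap
      have h1 := hNR Tok tlt Tok.x Tok.f PYZ_priv [] [] v false (by simp [del1]) (by simp)
        (by simp) (by omega) h0
      have h2 : Tok.x ∈ v := by rw [← List.count_pos_iff]; omega
      apply hA _ hSR
      simpa [state, h2] using h1
    · -- the last gap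
      rcases hLST Tok tlt Tok.x Tok.f PYZ_priv w1 p hw1 hp (by rw [← hv]; exact hx') with
        h1 | ⟨h1, h2, h3, h4⟩
      · rw [← hv] at h1
        exact hA h1 hSR
      · rw [← hv] at h3 h4
        set r := outc tlt (state tlt (del Tok.x Tok.f w1)) p with hr
        set U := upd tlt (state tlt (del Tok.x Tok.f w1)) p with hU
        rw [h3]
        have hrc : core r = true := hTcore r (by rw [h4]; simp)
        have hrab := PYZ_ab r hrc h2
        have hUo : Tok.o ∈ U := by
          have := hTo
          rw [h4] at this
          rcases List.mem_append.1 this with h | h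
          · exact h
          · rcases hrab with h' | h' <;> rw [h'] at h <;> simp at h
        have hUa : Tok.a ∈ U := by
          have := hca
          rw [h4, List.count_append] at this
          have h5 : List.count Tok.a [r] ≤ 1 := by
            have := List.count_le_length (a := Tok.a) (l := [r])
            simpa using this
          rw [← List.count_pos_iff]
          omega
        refine hend U [Tok.x, r] (fun t ht => hTcore t (by rw [h4]; simp [ht])) hUo hUa ?_ ?_
        · by_contra hcon
          apply hSR
          rw [h4]
          have h5 : Rb KK U = true := by simpa using hcon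
          unfold Rb at h5 ⊢
          rw [decide_eq_true_eq] at h5 ⊢
          rw [List.find?_append, h5]
          rfl
        · intro t ht
          simp only [List.mem_cons, List.not_mem_nil, or_false] at ht
          rcases ht with rfl | rfl
          · decide
          · rcases hrab with h' | h' <;> rw [h'] <;> decide
    · -- a gap in the middle
      obtain ⟨hM1, hM2⟩ := hMID Tok tlt Tok.x Tok.f PYZ_priv w1 w3 p q hw1 hw3 hp hq
        (by rw [← hv]; exact hx')
      rw [← hv] at hM1 hM2
      by_cases hcond : (Tok.x ∈ w1 ∧ tlt Tok.x (outc tlt (state tlt (del Tok.x Tok.f w1)) p) =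
        false ∧ tlt Tok.x (outc tlt (upd tlt (state tlt (del Tok.x Tok.f w1)) p) q) = true ∧
        tlt (outc tlt (state tlt (del Tok.x Tok.f w1)) p)
          (outc tlt (upd tlt (state tlt (del Tok.x Tok.f w1)) p) q) = false)
      swap
      · exact hA (hM1 hcond) hSR
      · obtain ⟨c1, c2, c3, c4⟩ := hcond
        obtain ⟨e1, e2⟩ := hM2 c1 c2 c3 c4
        have hinsp := hins (state tlt (del Tok.x Tok.f w1)) p
        have hinsq := hins (upd tlt (state tlt (del Tok.x Tok.f w1)) p) q
        have hpermp := hperm (state tlt (del Tok.x Tok.f w1)) p
        have hpermq := hperm (upd tlt (state tlt (del Tok.x Tok.f w1)) p) q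
        have hcin1 := hCIN (state tlt (del Tok.x Tok.f w1)) p
        have hcin2 := hCIN (upd tlt (state tlt (del Tok.x Tok.f w1)) p) q
        rw [hinsp] at hpermp
        rw [hinsq] at hpermq
        have ht1perm : (state tlt (del Tok.x Tok.f w1)).Perm (del Tok.x Tok.f w1) := by
          have := hrperm [] (del Tok.x Tok.f w1)
          simpa [state] using this
        clear hinsp hinsq hM1 hM2
        generalize state tlt (del Tok.x Tok.f w1) = t1 at *
        generalize hr : outc tlt t1 p = r at *
        generalize hu1 : upd tlt t1 p = u1 at *
        generalize hr2 : outc tlt u1 q = r2 at *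
        generalize hXX : upd tlt u1 q = X at *
        generalize hv3 : del Tok.x Tok.f w3 = v3 at *
        rw [e1]
        -- the two lists
        have P1 := hrperm (X ++ [r2, r]) v3
        have P2 := hrperm (X ++ [r, r2]) v3
        have P3 : (X ++ [r2, r]).Perm (X ++ [r, r2]) :=
          List.Perm.append_left X (List.Perm.swap r r2 [])
        have P4 : (run tlt (X ++ [r2, r]) v3).Perm (run tlt (X ++ [r, r2]) v3) :=
          (P1.trans (P3.append_right v3)).trans P2.symm
        rw [← e2] at P2 P4
        have hTrcore : ∀ t ∈ run tlt (X ++ [r2, r]) v3, core t = true := fun t ht =>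
          hTcore t (P4.mem_iff.1 ht)
        by_cases hR : Rb KK (run tlt (X ++ [r2, r]) v3) = false
        · refine hend _ [Tok.x] hTrcore (P4.mem_iff.2 hTo) (P4.mem_iff.2 hTa) hR ?_
          intro t ht
          simp only [List.mem_singleton] at ht
          subst ht
          decide
        · exfalso
          have hR' : Rb KK (run tlt (X ++ [r2, r]) v3) = true := by simpa using hR
          have hXc : ∀ t ∈ X, core t = true := fun t ht =>
            hTcore t (P2.mem_iff.2 (by simp [ht]))
          have hrc : core r = true := hTcore r (P2.mem_iff.2 (by simp))
          have hr2c : core r2 = true := hTcore r2 (P2.mem_iff.2 (by simp))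
          have hrab := PYZ_ab r hrc c2
          have hr0 : r ≠ Tok.o := by
            rcases hrab with h | h <;> rw [h] <;> decide
          have hv3l : ∀ t ∈ v3, t = Tok.o ∨ t = Tok.a ∨ t = Tok.b ∨ t = Tok.c ∨
              t = Tok.e := by
            intro t ht
            apply hletter t
            apply (hTperm.mem_iff).1
            exact P2.mem_iff.2 (by simp [ht])
          have hTe : (state tlt (del Tok.x Tok.f v)).count Tok.e = 1 := by
            rw [hTperm.count_eq, PYZ_countd v _ (by decide) (by decide), he']
          have hv3e : v3.count Tok.e ≤ 1 := by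
            have := P2.count_eq Tok.e
            rw [hTe, List.count_append] at this
            omega
          have ho1 : (X ++ [r, r2] ++ v3).count Tok.o = 1 := by
            rw [← P2.count_eq]; exact hco
          have ho2 : (X ++ [r2, r] ++ v3).count Tok.o = 1 := by
            rw [← P1.count_eq, P4.count_eq]; exact hco
          have f1 := hFV BB KK Tok.e (Or.inl ⟨rfl, rfl, rfl⟩) (X ++ [r2, r]) v3
            (by
              intro t ht
              simp only [List.mem_append, List.mem_cons, List.not_mem_nil, or_false] at ht
              rcases ht with h | h | h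
              · exact hXc t h
              · rw [h]; exact hr2c
              · rw [h]; exact hrc) hv3l hv3e (le_of_eq ho2)
          have f2 := hFV BB KK Tok.e (Or.inl ⟨rfl, rfl, rfl⟩) (X ++ [r, r2]) v3
            (by
              intro t ht
              simp only [List.mem_append, List.mem_cons, List.not_mem_nil, or_false] at ht
              rcases ht with h | h | h
              · exact hXc t h
              · rw [h]; exact hrc
              · rw [h]; exact hr2c) hv3l hv3e (le_of_eq ho1)
          rw [PYZ_any_perm KK P3, PYZ_any_perm BB P3] at f1
          rw [← e2] at f2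
          rw [hR'] at f1
          have g1 := hSWP KK X r r2 (by decide) hr0
          have g2 := hSWP BB X r r2 (by decide) hr0
          by_cases hr2o : r2 = Tok.o
          swap
          · rw [g1.1 hr2o, g2.1 hr2o] at f1
            apply hSR
            rw [f2, ← f1]
          · have hoX : Tok.o ∉ X := by
              intro h
              have : 1 ≤ X.count Tok.o := by
                rw [Nat.one_le_iff_ne_zero, ← Nat.pos_iff_ne_zero]
                exact List.count_pos_iff.2 h
              rw [List.count_append, List.count_append, hr2o] at ho1
              have h5 : 1 ≤ List.count Tok.o [r, Tok.o] := by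
                rw [Nat.one_le_iff_ne_zero, ← Nat.pos_iff_ne_zero]
                exact List.count_pos_iff.2 (by simp)
              omega
            have hov3 : Tok.o ∉ v3 := by
              intro h
              have : 1 ≤ v3.count Tok.o := by
                rw [Nat.one_le_iff_ne_zero, ← Nat.pos_iff_ne_zero]
                exact List.count_pos_iff.2 h
              rw [List.count_append, List.count_append, hr2o] at ho1
              have h5 : 1 ≤ List.count Tok.o [r, Tok.o] := by
                rw [Nat.one_le_iff_ne_zero, ← Nat.pos_iff_ne_zero]
                exact List.count_pos_iff.2 (by simp)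
              omega
            obtain ⟨k1, k2⟩ := g1.2 hr2o hoX
            obtain ⟨b1, b2⟩ := g2.2 hr2o hoX
            rw [k1, b1] at f1
            rw [k2, b2] at f2
            obtain ⟨F1, F2, F3, F4⟩ := hFF BB KK Tok.e (by decide) (by decide) v3 hov3
            rcases hrab with hra | hrb
            · -- r = a
              subst hra
              have hKa : KK Tok.a = true := by decide
              have hBa : BB Tok.a = false := by decide
              rw [hKa, hBa] at f2
              by_cases hXK : X.any KK = true
              · rw [hXK] at f1 f2
                simp only [Bool.not_true, Bool.false_and, Bool.not_false, Bool.and_true] at f1 f2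
                apply hSR
                rw [f2, ← f1]
              · have hXK' : X.any KK = false := by simpa using hXK
                apply hcost
                subst hr2o
                -- no letter of the class in q :: u1
                have q1 : (q :: u1).any KK = false := by
                  rw [← PYZ_any_perm KK hpermq, List.any_append, hXK']
                  decide
                rw [List.any_cons, Bool.or_eq_false_iff] at q1
                obtain ⟨q1, q2⟩ := q1
                have hpv : p ∈ v := by rw [hv]; simp
                have hqv : q ∈ v := by rw [hv]; simp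
                have hpx : p ≠ Tok.x := by
                  rintro rfl
                  have : 1 ≤ w1.count Tok.x := by
                    rw [Nat.one_le_iff_ne_zero, ← Nat.pos_iff_ne_zero]
                    exact List.count_pos_iff.2 c1
                  rw [hv, List.count_append, List.count_cons_self] at hx'
                  omega
                have hqx : q ≠ Tok.x := by
                  rintro rfl
                  have : 1 ≤ w1.count Tok.x := by
                    rw [Nat.one_le_iff_ne_zero, ← Nat.pos_iff_ne_zero]
                    exact List.count_pos_iff.2 c1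
                  rw [hv, List.count_append, List.count_cons_of_ne hpx,
                    List.count_cons_self] at hx'
                  omega
                have hpc : core p = true := by
                  have := hmem p hpv
                  revert this hpx hp
                  clear * -
                  revert p
                  decide
                have hqc : core q = true := by
                  have := hmem q hqv
                  revert this hqx hq
                  clear * -
                  revert q
                  decide
                have hpz : p ≠ Tok.z := by rintro rfl; exact hz' hpv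
                have hqz : q ≠ Tok.z := by rintro rfl; exact hz' hqv
                have ht1c : ∀ t ∈ t1, core t = true := by
                  intro t ht
                  have h6 : t ∈ u1 ++ [Tok.a] := hpermp.mem_iff.2 (by simp [ht])
                  rcases List.mem_append.1 h6 with h7 | h7
                  · have h8 : t ∈ X ++ [Tok.o] := hpermq.mem_iff.2 (by simp [h7])
                    rcases List.mem_append.1 h8 with h9 | h9
                    · exact hXc t h9
                    · rw [List.mem_singleton] at h9; rw [h9]; decide
                  · rw [List.mem_singleton] at h7; rw [h7]; decide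
                have hu1c : ∀ t ∈ u1, core t = true := by
                  intro t h7
                  have h8 : t ∈ X ++ [Tok.o] := hpermq.mem_iff.2 (by simp [h7])
                  rcases List.mem_append.1 h8 with h9 | h9
                  · exact hXc t h9
                  · rw [List.mem_singleton] at h9; rw [h9]; decide
                obtain ⟨i1, -, -, i4⟩ := hcin1 ht1c hpc
                obtain ⟨-, -, j3, -⟩ := hcin2 hu1c hqc
                have hnoc : Tok.c ∉ u1 := by
                  intro h
                  rw [List.any_eq_false] at q2
                  exact q2 _ h (by decide)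
                have hnoa : Tok.a ∉ u1 := by
                  intro h
                  rw [List.any_eq_false] at q2
                  exact q2 _ h (by decide)
                have hpa : p = Tok.a := by
                  rcases i1 hpz rfl with h | h
                  · exact h
                  · exact absurd (i4 rfl h) hnoc
                subst hpa
                have hq' : q = Tok.o ∨ q = Tok.e := by
                  rcases j3 rfl with h | h | h
                  · exact Or.inl h
                  · exact Or.inr h
                  · exact absurd h hqz
                have hw1a : Tok.a ∉ w1 := by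
                  intro h
                  have h6 : 1 ≤ t1.count Tok.a := by
                    rw [Nat.one_le_iff_ne_zero, ← Nat.pos_iff_ne_zero]
                    apply List.count_pos_iff.2
                    apply ht1perm.mem_iff.2
                    unfold del
                    rw [List.mem_filter]
                    exact ⟨h, by decide⟩
                  have h7 := hpermp.count_eq Tok.a
                  rw [List.count_append, List.count_singleton_self, List.count_cons_self] at h7
                  have h8 : u1.count Tok.a = 0 := List.count_eq_zero.2 hnoa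
                  omega
                have hw1c : Tok.c ∉ w1 := by
                  intro h
                  have h6 : Tok.c ∈ t1 := by
                    apply ht1perm.mem_iff.2
                    unfold del
                    rw [List.mem_filter]
                    exact ⟨h, by decide⟩
                  have h7 : Tok.c ∈ u1 ++ [Tok.a] := hpermp.mem_iff.2 (by simp [h6])
                  rcases List.mem_append.1 h7 with h8 | h8
                  · exact hnoc h8
                  · simp at h8
                refine ⟨w1, Tok.f :: w3, ?_, c1, hw1a, hw1c⟩
                rcases hq' with rfl | rfl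
                · exact Or.inl hv
                · exact Or.inr hv
            · -- r = b
              subst hrb
              have hKb : KK Tok.b = false := by decide
              have hBb : BB Tok.b = true := by decide
              rw [hKb, hBb] at f2
              simp only [Bool.not_true, Bool.not_false, Bool.and_true, Bool.and_false] at f2
              have hany : (X ++ [Tok.b, r2]).any KK = X.any KK := by
                rw [List.any_append, hr2o]
                simp [KK]
              have h6 := F2 (!X.any BB) ((X ++ [Tok.b, r2]).any BB) (!X.any KK)
                ((X ++ [Tok.b, r2]).any KK) (by rw [hany]; intro h; rw [h]; rfl) f1.symm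
              apply hSR
              rw [f2, F1]
              exact h6
  · rintro ⟨u, v', hv, hu, v1, v2, hv', hv1⟩
    obtain ⟨hu0, w3, hw3, hw30⟩ := hDE2 Tok Tok.f u v' Tok.b Tok.o (by decide) (by decide)
      (by rw [← hv]; exact hE)
    obtain ⟨-, hM2⟩ := hMID Tok tlt Tok.x Tok.f PYZ_priv u w3 Tok.b Tok.o hu0 hw30
      (by decide) (by decide) (by rw [← hw3, ← hv]; exact hx')
    rw [← hw3, ← hv] at hM2
    have hxu : Tok.x ∈ u := by
      have : Tok.x ∈ del1 Tok.f u := by rw [hu]; simp
      unfold del1 at this
      exact (List.mem_filter.1 this).1
    have hdu : del Tok.x Tok.f u = [] := by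
      have : del Tok.x Tok.f u = (del1 Tok.f u).filter (fun t => decide (t ≠ Tok.x)) := by
        unfold del del1
        rw [List.filter_filter]
        apply List.filter_congr
        intro t _
        simp
      rw [this, hu]
      decide
    rw [hdu] at hM2
    have hst : state tlt [] = [] := rfl
    rw [hst] at hM2
    have e0 : outc tlt [] Tok.b = Tok.b := rfl
    have e0' : upd tlt [] Tok.b = [] := rfl
    rw [e0, e0'] at hM2
    have e00 : outc tlt [] Tok.o = Tok.o := rfl
    have e00' : upd tlt [] Tok.o = [] := rfl
    rw [e00, e00'] at hM2
    obtain ⟨e1, e2⟩ := hM2 hxu (by decide) (by decide) (by decide)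
    rw [List.nil_append] at e1 e2
    generalize hv3 : del Tok.x Tok.f w3 = v3 at *
    have P1 := hrperm [Tok.o, Tok.b] v3
    have P2 := hrperm [Tok.b, Tok.o] v3
    have P3 : [Tok.o, Tok.b].Perm [Tok.b, Tok.o] := List.Perm.swap _ _ _
    have P4 : (run tlt [Tok.o, Tok.b] v3).Perm (run tlt [Tok.b, Tok.o] v3) :=
      (P1.trans (P3.append_right v3)).trans P2.symm
    rw [← e2] at P2 P4
    have hTrcore : ∀ t ∈ run tlt [Tok.o, Tok.b] v3, core t = true := fun t ht =>
      hTcore t (P4.mem_iff.1 ht)
    have hv3l : ∀ t ∈ v3, t = Tok.o ∨ t = Tok.a ∨ t = Tok.b ∨ t = Tok.c ∨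
        t = Tok.e := by
      intro t ht
      apply hletter t
      apply (hTperm.mem_iff).1
      exact P2.mem_iff.2 (by simp [ht])
    have hTe : (state tlt (del Tok.x Tok.f v)).count Tok.e = 1 := by
      rw [hTperm.count_eq, PYZ_countd v _ (by decide) (by decide), he']
    have hv3e : v3.count Tok.e = 1 := by
      have := P2.count_eq Tok.e
      rw [hTe, List.count_append] at this
      have h6 : List.count Tok.e [Tok.b, Tok.o] = 0 := by decide
      omega
    have ho1 : ([Tok.b, Tok.o] ++ v3).count Tok.o = 1 := by
      rw [← P2.count_eq]; exact hco
    have ho2 : ([Tok.o, Tok.b] ++ v3).count Tok.o = 1 := by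
      rw [← P1.count_eq, P4.count_eq]; exact hco
    have hov3 : Tok.o ∉ v3 := by
      intro h
      have : 1 ≤ v3.count Tok.o := by
        rw [Nat.one_le_iff_ne_zero, ← Nat.pos_iff_ne_zero]
        exact List.count_pos_iff.2 h
      rw [List.count_append] at ho1
      have h6 : List.count Tok.o [Tok.b, Tok.o] = 1 := by decide
      omega
    have f1 := hFV BB KK Tok.e (Or.inl ⟨rfl, rfl, rfl⟩) [Tok.o, Tok.b] v3
      (by decide) hv3l (le_of_eq hv3e) (le_of_eq ho2)
    have f2 := hFV BB KK Tok.e (Or.inl ⟨rfl, rfl, rfl⟩) [Tok.b, Tok.o] v3
      (by decide) hv3l (le_of_eq hv3e) (le_of_eq ho1)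
    obtain ⟨F1, F2, F3, F4⟩ := hFF BB KK Tok.e (by decide) (by decide) v3 hov3
    have d1 : Rb BB [Tok.o, Tok.b] = true := by decide
    have d2 : Rb BB [Tok.b, Tok.o] = false := by decide
    have d3 : Rb KK [Tok.b, Tok.o] = true := by decide
    rw [d1] at f1
    rw [d2, d3] at f2
    rw [← e2, F1] at f2
    refine ⟨f2, ?_⟩
    rw [e1]
    refine hend _ [Tok.x] hTrcore (P4.mem_iff.2 hTo) (P4.mem_iff.2 hTa) ?_ ?_
    · rw [f1]
      -- decompose v3
      have hw3' : Tok.f :: w3 = v1 ++ Tok.a :: v2 := by rw [← hw3, hv']
      have hv1ne : v1 ≠ [] := by
        rintro rfl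
        simp at hw3'
      obtain ⟨t0, v1', rfl⟩ := List.exists_cons_of_ne_nil hv1ne
      rw [List.cons_append] at hw3'
      obtain ⟨-, hw3''⟩ := List.cons.inj hw3'
      have h7 : v3 = del Tok.x Tok.f v1' ++ Tok.a :: del Tok.x Tok.f v2 := by
        rw [← hv3, hw3'']
        unfold del
        rw [List.filter_append, List.filter_cons_of_pos (by decide)]
      have h8 : Tok.e ∉ del Tok.x Tok.f v1' := by
        intro h
        unfold del at h
        exact hv1 (List.mem_cons_of_mem _ (List.mem_filter.1 h).1)
      refine F4 _ _ _ _ _ Tok.a h7 h8 (by decide) (by decide) ?_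
      have h9 : Tok.e ∈ v3 := by rw [← List.count_pos_iff]; omega
      rw [h7] at h9
      rcases List.mem_append.1 h9 with h | h
      · exact absurd h h8
      · rcases List.mem_cons.1 h with h | h
        · simp at h
        · exact h
    · intro t ht
      simp only [List.mem_singleton] at ht
      subst ht
      decide

end Pool.Agent.Helper8.TNG
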