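import Pool.Agent.Helper8.TNG.Stmts

namespace Pool.Agent.Helper8.TNG

theorem st_WC : ST_WC := by
  intro α _ S
  have hmem : ∀ w : List α, w ∈ Wd S ↔ w.Nodup ∧ ∀ p, p ∈ w ↔ p ∈ S := by
    intro w
    unfold Wd
    rw [List.mem_toFinset, List.mem_permutations]
    constructor
    · intro h
      refine ⟨h.nodup_iff.2 S.nodup_toList, fun p => ?_⟩
      rw [h.mem_iff, Finset.mem_toList]
    · rintro ⟨h1, h2⟩
      rw [List.perm_ext_iff_of_nodup h1 S.nodup_toList]
      intro p
      rw [h2, Finset.mem_toList]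
  refine ⟨hmem, ?_⟩
  unfold Wd
  rw [List.toFinset_card_of_nodup (List.nodup_permutations _ S.nodup_toList),
    List.length_permutations, Finset.length_toList]

end Pool.Agent.Helper8.TNG
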