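import Pool.Agent.Helper1.TNG.ER
import Pool.Agent.Helper11.TNG.CONN
import Pool.Agent.Helper11.TNG.EB
import Pool.Agent.Helper11.TNG.POS
import Pool.Agent.Helper11.TNG.SUM
import Pool.Agent.Helper23.TNG.FLT
import Pool.Agent.Helper23.TNG.PRM
import Pool.Agent.Helper27.TNG.GL
import Pool.Agent.Helper27.TNG.N1
import Pool.Agent.Helper27.TNG.TGL
import Pool.Agent.Helper29.TNG.LST
import Pool.Agent.Helper29.TNG.NR
import Pool.Agent.Helper29.TNG.SV
import Pool.Agent.Helper53.TNG.FRZ
import Pool.Agent.Helper53.TNG.N2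
import Pool.Agent.Helper53.TNG.REG
import Pool.Agent.Helper60.TNG.LEX
import Pool.Agent.Helper60.TNG.LOW
import Pool.Agent.Helper60.TNG.PB
import Pool.Agent.Helper63.TNG.CIN
import Pool.Agent.Helper63.TNG.DE2
import Pool.Agent.Helper63.TNG.DEC
import Pool.Agent.Helper63.TNG.PXS
import Pool.Agent.Helper63.TNG.PYC
import Pool.Agent.Helper63.TNG.TRV
import Pool.Agent.Helper63.TNG.TZE
import Pool.Agent.Helper71.TNG.CTR
import Pool.Agent.Helper71.TNG.FV
import Pool.Agent.Helper72.TNG.CE
import Pool.Agent.Helper72.TNG.CZ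
import Pool.Agent.Helper72.TNG.GZ
import Pool.Agent.Helper8.TNG.FF
import Pool.Agent.Helper8.TNG.FIN
import Pool.Agent.Helper8.TNG.INS
import Pool.Agent.Helper8.TNG.NUM
import Pool.Agent.Helper8.TNG.PYZ
import Pool.Agent.Helper8.TNG.WC
import Pool.Agent.Helper81.TNG.CT
import Pool.Agent.Helper81.TNG.PF
import Pool.Agent.Helper89.TNG.MID
import Pool.Agent.Helper89.TNG.PYE

/-!
# Tangled labelings: all rows chained
-/

namespace Pool.Agent.Helper8.TNG

theorem all_POS : ST_POS := st_POS
theorem all_PRM : ST_PRM := st_PRM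
theorem all_FRZ : ST_FRZ := st_FRZ
theorem all_REG : ST_REG := st_REG
theorem all_PRP : ST_PRP := st_PRP
theorem all_LEX : ST_LEX := st_LEX
theorem all_DE2 : ST_DE2 := st_DE2
theorem all_DEC : ST_DEC := st_DEC
theorem all_CTR : ST_CTR := st_CTR
theorem all_SWP : ST_SWP := st_SWP
theorem all_FF : ST_FF := st_FF
theorem all_INS : ST_INS := st_INS
theorem all_MAP : ST_MAP := st_MAP
theorem all_NUM : ST_NUM := st_NUM
theorem all_WC : ST_WC := st_WC
theorem all_CT : ST_CT := st_CT all_WC
theorem all_PF : ST_PF := st_PF all_WC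
theorem all_LS : ST_LS := st_LS all_WC
theorem all_ER : ST_ER := st_ER all_WC
theorem all_CON : ST_CON := st_CON all_POS
theorem all_FLT : ST_FLT := st_FLT all_INS
theorem all_GL : ST_GL := st_GL all_WC
theorem all_TGL : ST_TGL := st_TGL all_PRM all_PRP all_FRZ all_LEX all_REG
theorem all_NR : ST_NR := st_NR all_INS all_FLT
theorem all_LOW : ST_LOW := st_LOW all_WC all_TGL
theorem all_PB : ST_PB := st_PB all_WC
theorem all_CIN : ST_CIN := st_CIN all_INS
theorem all_TRV : ST_TRV := st_TRV all_PB all_INS all_WC all_POS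
theorem all_TZE : ST_TZE := st_TZE all_INS
theorem all_FV : ST_FV := st_FV all_INS all_CTR
theorem all_PU : ST_PU := st_PU all_WC all_PB
theorem all_MID : ST_MID := st_MID all_INS all_FLT all_NR
theorem all_N1 : ST_N1 := st_N1 all_WC all_PB all_PU all_GL all_LS
theorem all_LST : ST_LST := st_LST all_INS all_FLT all_NR
theorem all_N2 : ST_N2 := st_N2 all_WC all_PB all_PU all_GL all_N1
theorem all_PXS : ST_PXS := st_PXS all_INS all_FLT all_NR all_TZE
theorem all_PYC : ST_PYC := st_PYC all_INS all_FLT all_NR all_DEC all_MID all_LST all_TZE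
theorem all_CE : ST_CE := st_CE all_WC all_PB all_PU all_ER all_GL all_PF
theorem all_CZ : ST_CZ := st_CZ all_WC all_PB all_PU all_ER all_GL all_PF
theorem all_GZ : ST_GZ := st_GZ all_WC all_PB all_PU all_ER all_GL all_PF
theorem all_PYZ : ST_PYZ := st_PYZ all_INS all_FLT all_NR all_DEC all_DE2 all_MID all_LST all_FV all_FF all_SWP all_TZE all_CIN
theorem all_PYE : ST_PYE := st_PYE all_INS all_FLT all_DEC all_MID all_LST all_FV all_FF all_SWP all_TZE all_CIN all_NR
theorem all_EB : ST_EB := st_EB all_WC all_N1 all_N2 all_POS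
theorem all_SVC : ST_SVC := st_SVC all_WC all_PB all_ER all_MAP all_CT all_PYC
theorem all_SVE : ST_SVE := st_SVE all_WC all_PB all_ER all_MAP all_CT all_PYE all_PXS
theorem all_SVZ : ST_SVZ := st_SVZ all_WC all_PB all_ER all_MAP all_CT all_PYZ all_PXS
theorem all_SUM : ST_SUM := st_SUM all_PB all_TRV all_SVC all_SVE all_SVZ all_CZ all_CE all_GZ all_EB all_POS
theorem all_FIN : ST_RES := st_FIN all_LOW all_SUM all_NUM all_POS all_CON

theorem tangled_result : ST_RES := all_FIN

end Pool.Agent.Helper8.TNG
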