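import Mathlib

/-!
# Tangled labelings (MP_21b3ca_co): definitions

First section: the notions of the problem, word for word. Then words, the register
process, the ten tokens and the counterexample poset.
-/

namespace Pool.Agent.Helper8.TNG

/-! ## The notions of the problem -/

section Problem

variable {P : Type} [Fintype P] [PartialOrder P]

/-- A labeling of the finite poset `P`: a bijection from `P` to `{1, ..., n}`, `n = |P|`. -/
def IsLabeling (L : P → ℕ) : Prop :=
  Set.BijOn L Set.univ (Set.Icc 1 (Fintype.card P))

omit [Fintype P] in
/-- `L` is a linear extension (increasing). -/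
def IsLinExt (L : P → ℕ) : Prop := ∀ p q : P, p < q → L p < L q

omit [Fintype P] in
/-- `q` is the `L`-successor of `p`: the element above `p` with the smallest label. -/
def IsLSucc (L : P → ℕ) (p q : P) : Prop := p < q ∧ ∀ t, p < t → L q ≤ L t

omit [Fintype P] in
/-- `p` is one of `v_1, v_2, ..., v_m`: `v_1` has label `1` and `v_{i+1}` is the `L`-successor
of `v_i` (the chain stops at the first maximal element, which has no `L`-successor). -/
inductive InChain (L : P → ℕ) : P → Prop
  | first (p : P) : L p = 1 → InChain L p
  | next (p q : P) : InChain L p → IsLSucc L p q → InChain L q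

open Classical in
/-- Extended promotion. -/
noncomputable def promote (L : P → ℕ) (p : P) : ℕ :=
  if InChain L p then
    (if h : ∃ q, IsLSucc L p q then L h.choose - 1 else Fintype.card P)
  else L p - 1

/-- `L` is tangled: its sorting time, the least `k` such that the `k`-th promotion of `L` is a
linear extension, equals `n - 1`. -/
def Tangled (L : P → ℕ) : Prop :=
  IsLeast {k : ℕ | IsLinExt (promote^[k] L)} (Fintype.card P - 1)

variable (P) in
/-- The number of tangled labelings of `P`. -/
noncomputable def numTangled : ℕ := Set.ncard {L : P → ℕ | IsLabeling L ∧ Tangled L}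

end Problem

/-! ## Words and probabilities -/

section Words

variable {α : Type} [DecidableEq α]

/-- The words over the alphabet `S`: lists containing every letter of `S` exactly once. -/
noncomputable def Wd (S : Finset α) : Finset (List α) := S.toList.permutations.toFinset

open Classical in
/-- The proportion of the words over `S` that satisfy `Q`. -/
noncomputable def pr (S : Finset α) (Q : List α → Prop) : ℝ :=
  (((Wd S).filter Q).card : ℝ) / (Nat.factorial S.card : ℝ)

omit [DecidableEq α] in
/-- `q` comes immediately after `p` in `w`. -/
def Adj (p q : α) (w : List α) : Prop := ∃ u v, w = u ++ p :: q :: v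

omit [DecidableEq α] in
/-- The number of letters of `w` with `F = false` that are not immediately followed by a letter
with `F = true`. -/
def nE (F : α → Bool) : List α → ℕ
  | [] => 0
  | [p] => if F p = true then 0 else 1
  | p :: q :: w => (if F p = false ∧ F q = false then 1 else 0) + nE F (q :: w)

/-- The labeling of a word: the first letter gets label `1`, and so on. -/
def lab (w : List α) (p : α) : ℕ := w.idxOf p + 1

end Words

/-! ## Passes and registers -/

section Registers

variable {α : Type}

/-- One pass over a word with the current letter `c`. -/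
def pass (lt : α → α → Bool) : α → List α → List α
  | c, [] => [c]
  | c, p :: w => if lt c p then c :: pass lt p w else p :: pass lt c w

/-- Promotion of a word. -/
def promW (lt : α → α → Bool) : List α → List α
  | [] => []
  | c :: w => pass lt c w

/-- Insert the letter `p`: it is exchanged with every register below it; the last carry is
appended. -/
def ins (lt : α → α → Bool) : List α → α → List α
  | [], p => [p]
  | r :: s, p => if lt r p then p :: ins lt s r else r :: ins lt s p

/-- The last carry. -/
def outc (lt : α → α → Bool) : List α → α → α
  | [], p => p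
  | r :: s, p => if lt r p then outc lt s r else outc lt s p

/-- The registers after `p` went through (`ins = upd ++ [outc]`). -/
def upd (lt : α → α → Bool) : List α → α → List α
  | [], _ => []
  | r :: s, p => if lt r p then p :: upd lt s r else r :: upd lt s p

/-- The outputs of the registers `σ` when the word is fed through them. -/
def outs (lt : α → α → Bool) : List α → List α → List α
  | _, [] => []
  | s, p :: w => outc lt s p :: outs lt (upd lt s p) w

/-- The list after insertion of all letters of a word, starting from `σ`. -/
def run (lt : α → α → Bool) (s : List α) (w : List α) : List α := w.foldl (ins lt) s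

/-- The list after insertion of all letters of a word, starting from the empty list. -/
def state (lt : α → α → Bool) (w : List α) : List α := run lt [] w

/-- All suffixes of length at most `k` are closed upwards. -/
def SufUp (lt : α → α → Bool) (k : ℕ) (w : List α) : Prop :=
  ∀ u v, w = u ++ v → v.length ≤ k → ∀ p ∈ v, ∀ q ∈ u, lt p q = false

end Registers

/-! ## Tokens and the poset -/

/-- The ten kinds of elements. -/
inductive Tok
  | x | y | o | a | b | c | e | z | f | g
  deriving DecidableEq, Repr

instance : Fintype Tok where
  elems := {.x, .y, .o, .a, .b, .c, .e, .z, .f, .g}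
  complete t := by cases t <;> decide

/-- The strict order on tokens. -/
def tlt : Tok → Tok → Bool
  | .x, .o => true
  | .x, .c => true
  | .x, .e => true
  | .x, .z => true
  | .x, .f => true
  | .y, .b => true
  | .y, .a => true
  | .y, .c => true
  | .y, .e => true
  | .y, .z => true
  | .y, .g => true
  | .o, .e => true
  | .o, .z => true
  | .b, .e => true
  | .a, .c => true
  | .a, .z => true
  | .c, .z => true
  | _, _ => false

/-- How many elements of each kind. -/
def cnt (B M K K' : ℕ) : Tok → ℕ
  | .x => 1
  | .y => 1
  | .o => 1
  | .a => 2
  | .b => B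
  | .c => M
  | .e => 1
  | .z => 1
  | .f => K
  | .g => K'

/-- The counterexample poset. -/
def El (B M K K' : ℕ) : Type := Σ t : Tok, Fin (cnt B M K K' t)

instance (B M K K' : ℕ) : DecidableEq (El B M K K') :=
  inferInstanceAs (DecidableEq (Σ t : Tok, Fin (cnt B M K K' t)))

instance (B M K K' : ℕ) : Fintype (El B M K K') :=
  inferInstanceAs (Fintype (Σ t : Tok, Fin (cnt B M K K' t)))

/-- The kind of an element. -/
def tk {B M K K' : ℕ} (p : El B M K K') : Tok := p.1

/-- The strict order of the poset. -/
def elt (B M K K' : ℕ) (p q : El B M K K') : Bool := tlt p.1 q.1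

instance (B M K K' : ℕ) : PartialOrder (El B M K K') where
  le p q := p = q ∨ elt B M K K' p q = true
  le_refl p := Or.inl rfl
  le_trans p q r h1 h2 := by
    rcases h1 with rfl | h1
    · exact h2
    · rcases h2 with rfl | h2
      · exact Or.inr h1
      · right
        obtain ⟨p1, p2⟩ := p
        obtain ⟨q1, q2⟩ := q
        obtain ⟨r1, r2⟩ := r
        simp only [elt] at h1 h2 ⊢
        revert h1 h2
        clear p2 q2 r2
        revert p1 q1 r1
        decide
  le_antisymm p q h1 h2 := by
    rcases h1 with h1 | h1
    · exact h1
    · rcases h2 with h2 | h2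
      · exact h2.symm
      · exfalso
        obtain ⟨p1, p2⟩ := p
        obtain ⟨q1, q2⟩ := q
        simp only [elt] at h1 h2
        revert h1 h2
        clear p2 q2
        revert p1 q1
        decide

/-- The element `x`. -/
def eX (B M K K' : ℕ) : El B M K K' := ⟨.x, (0 : Fin 1)⟩
/-- The element `y`. -/
def eY (B M K K' : ℕ) : El B M K K' := ⟨.y, (0 : Fin 1)⟩
/-- The element `o`. -/
def eO (B M K K' : ℕ) : El B M K K' := ⟨.o, (0 : Fin 1)⟩
/-- The element `e`. -/
def eE (B M K K' : ℕ) : El B M K K' := ⟨.e, (0 : Fin 1)⟩
/-- The element `z`. -/
def eZ (B M K K' : ℕ) : El B M K K' := ⟨.z, (0 : Fin 1)⟩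
/-- The elements `a_j`. -/
def eA (B M K K' : ℕ) (j : Fin 2) : El B M K K' := ⟨.a, j⟩
/-- The elements `b_i`. -/
def eB {B : ℕ} (M K K' : ℕ) (i : Fin B) : El B M K K' := ⟨.b, i⟩
/-- The elements `c_k`. -/
def eC (B : ℕ) {M : ℕ} (K K' : ℕ) (i : Fin M) : El B M K K' := ⟨.c, i⟩
/-- The elements `f_i`. -/
def eF (B M : ℕ) {K : ℕ} (K' : ℕ) (i : Fin K) : El B M K K' := ⟨.f, i⟩
/-- The elements `g_i`. -/
def eG (B M K : ℕ) {K' : ℕ} (i : Fin K') : El B M K K' := ⟨.g, i⟩

end Pool.Agent.Helper8.TNG
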