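import Pool.Agent.Helper8.TNG.Defs

/-!
# Tangled labelings (MP_21b3ca_co): statements of the rows

Every row `XXX` is a theorem `st_XXX : ST_XXX`, with the rows it uses as hypotheses.
-/

namespace Pool.Agent.Helper8.TNG

open Finset

/-! ## Group W: words and proportions -/

/-- WC: the words over `S`. -/
def ST_WC : Prop := ∀ (α : Type) [DecidableEq α] (S : Finset α),
  (∀ w : List α, w ∈ Wd S ↔ w.Nodup ∧ ∀ p, p ∈ w ↔ p ∈ S) ∧
    (Wd S).card = S.card.factorial

/-- PB: rules for `pr`. -/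
def ST_PB : Prop := ∀ (α : Type) [DecidableEq α] (S : Finset α) (Q R : List α → Prop),
  0 ≤ pr S Q ∧ pr S Q ≤ 1 ∧ ((∀ w ∈ Wd S, Q w → R w) → pr S Q ≤ pr S R) ∧
    ((∀ w ∈ Wd S, (Q w ↔ R w)) → pr S Q = pr S R) ∧
    ((∀ w ∈ Wd S, Q w) → pr S Q = 1) ∧
    pr S (fun w => Q w ∨ R w) ≤ pr S Q + pr S R ∧
    pr S (fun w => ¬ Q w) = 1 - pr S Q ∧
    ((∀ w ∈ Wd S, Q w → ¬ R w) → pr S (fun w => Q w ∨ R w) = pr S Q + pr S R)

/-- PU: finite unions. -/
def ST_PU : Prop := ∀ (α ι : Type) [DecidableEq α] (S : Finset α) (I : Finset ι)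
  (Q : ι → List α → Prop),
  pr S (fun w => ∃ i ∈ I, Q i w) ≤ ∑ i ∈ I, pr S (Q i) ∧
    ((∀ w ∈ Wd S, ∀ i ∈ I, ∀ j ∈ I, Q i w → Q j w → i = j) →
      pr S (fun w => ∃ i ∈ I, Q i w) = ∑ i ∈ I, pr S (Q i))

/-- ER: erasing the letters outside `T`. -/
def ST_ER : Prop := ∀ (α : Type) [DecidableEq α] (S T : Finset α) (Q : List α → Prop),
  T ⊆ S → pr S (fun w => Q (w.filter (fun p => decide (p ∈ T)))) = pr T Q

/-- GL: gluing `q` behind `p`. -/
def ST_GL : Prop := ∀ (α : Type) [DecidableEq α] (S : Finset α) (p q : α)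
  (Q : List α → Prop), p ∈ S → q ∈ S → p ≠ q →
  pr S (fun w => Adj p q w ∧ Q (w.erase q)) = (1 / (S.card : ℝ)) * pr (S.erase q) Q

/-- LS: the last letter. -/
def ST_LS : Prop := ∀ (α : Type) [DecidableEq α] (S : Finset α) (p : α), p ∈ S →
  pr S (fun w => ∃ u, w = u ++ [p]) = 1 / (S.card : ℝ)

/-- PF: prescribed first letters. -/
def ST_PF : Prop := ∀ (α : Type) [DecidableEq α] (S : Finset α) (l : List α)
  (Q : List α → Prop), l.Nodup → (∀ p ∈ l, p ∈ S) →
  pr S (fun w => ∃ r, w = l ++ r ∧ Q r) =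
    ((S.card - l.length).factorial : ℝ) / (S.card.factorial : ℝ) * pr (S \ l.toFinset) Q

/-- N1: words with at least one empty gap. -/
def ST_N1 : Prop := ∀ (α : Type) [DecidableEq α] (S : Finset α) (F : α → Bool),
  1 ≤ S.card →
  pr S (fun w => 1 ≤ nE F w) ≤ ((S.filter (fun p => F p = false)).card : ℝ) ^ 2 / (S.card : ℝ)

/-- N2: words with at least two empty gaps. -/
def ST_N2 : Prop := ∀ (α : Type) [DecidableEq α] (S : Finset α) (F : α → Bool),
  2 ≤ S.card →
  pr S (fun w => 2 ≤ nE F w) ≤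
    ((S.filter (fun p => F p = false)).card : ℝ) ^ 4 / ((S.card : ℝ) * ((S.card : ℝ) - 1))

/-! ## Group R: promotion and registers -/

/-- PRM: promotion of the labeling of a word is the labeling of the promoted word. -/
def ST_PRM : Prop := ∀ (P : Type) [Fintype P] [DecidableEq P] [PartialOrder P]
  (lt : P → P → Bool), (∀ p q, lt p q = true ↔ p < q) →
  ∀ w : List P, w.Nodup → (∀ p, p ∈ w) → promote (lab w) = lab (promW lt w)

/-- PRP: promotion permutes the letters. -/
def ST_PRP : Prop := ∀ (α : Type) (lt : α → α → Bool) (w : List α), (promW lt w).Perm w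

/-- FRZ: one more closed suffix after every promotion. -/
def ST_FRZ : Prop := ∀ (α : Type) (lt : α → α → Bool),
  (∀ p, lt p p = false) → (∀ p q r, lt p q = true → lt q r = true → lt p r = true) →
  ∀ (k : ℕ) (w : List α), SufUp lt k w → SufUp lt (k + 1) (promW lt w)

/-- LEX: linear extensions. -/
def ST_LEX : Prop := ∀ (P : Type) [Fintype P] [DecidableEq P] [PartialOrder P]
  (lt : P → P → Bool), (∀ p q, lt p q = true ↔ p < q) →
  ∀ w : List P, w.Nodup → (∀ p, p ∈ w) →
    (IsLinExt (lab w) ↔ SufUp lt (Fintype.card P - 1) w)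

/-- REG: the beginning of the word after as many promotions as there are letters in `a`. -/
def ST_REG : Prop := ∀ (α : Type) (lt : α → α → Bool) (a v : List α),
  ∃ tail : List α, (promW lt)^[a.length] (a ++ v) = outs lt (state lt a) v ++ tail

/-- TGL: a criterion for tangled labelings. -/
def ST_TGL : Prop := ∀ (P : Type) [Fintype P] [DecidableEq P] [PartialOrder P]
  (lt : P → P → Bool), (∀ p q, lt p q = true ↔ p < q) →
  ∀ (w : List P) (l u : P), (w ++ [l, u]).Nodup → (∀ p, p ∈ w ++ [l, u]) → IsMin u →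
    u < outc lt (state lt w) l → IsLabeling (lab (w ++ [l, u])) ∧ Tangled (lab (w ++ [l, u]))

/-- LOW: the lower bound for the number of tangled labelings. -/
def ST_LOW : Prop := ∀ (P : Type) [Fintype P] [DecidableEq P] [PartialOrder P]
  (lt : P → P → Bool), (∀ p q, lt p q = true ↔ p < q) →
  ∀ x y : P, x ≠ y → IsMin x → IsMin y →
    ((Fintype.card P - 2).factorial : ℝ) * ∑ l ∈ Finset.univ \ {x, y},
      (pr (Finset.univ \ {x, l}) (fun w => lt x (outc lt (state lt w) l) = true) +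
        pr (Finset.univ \ {y, l}) (fun w => lt y (outc lt (state lt w) l) = true))
      ≤ (numTangled P : ℝ)

/-! ## Group G: generic facts on the register process -/

/-- INS: elementary facts on `ins`, `upd`, `outc`. -/
def ST_INS : Prop := ∀ (α : Type) (lt : α → α → Bool),
  (∀ (s : List α) (p : α), ins lt s p = upd lt s p ++ [outc lt s p]) ∧
  (∀ (s : List α) (p : α), (ins lt s p).Perm (p :: s)) ∧
  (∀ (s w : List α), (run lt s w).Perm (s ++ w)) ∧
  (∀ (s v w : List α), run lt s (v ++ w) = run lt (run lt s v) w) ∧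
  (∀ (s : List α) (p : α), (∀ r ∈ s, lt r p = false) →
    outc lt s p = p ∧ ins lt s p = s ++ [p]) ∧
  (∀ (s t : List α) (p : α), outc lt (s ++ t) p = outc lt t (outc lt s p)) ∧
  (∀ (s t : List α) (p : α), upd lt (s ++ t) p = upd lt s p ++ upd lt t (outc lt s p)) ∧
  (∀ (s t : List α) (p : α), ins lt (s ++ t) p = upd lt s p ++ ins lt t (outc lt s p))

/-- MAP: the process commutes with a map that respects the relation. -/
def ST_MAP : Prop := ∀ (α β : Type) (lt : α → α → Bool) (lt' : β → β → Bool) (h : α → β),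
  (∀ p q, lt' (h p) (h q) = lt p q) →
  (∀ (s : List α) (p : α), outc lt' (s.map h) (h p) = h (outc lt s p)) ∧
  (∀ (s : List α) (p : α), ins lt' (s.map h) (h p) = (ins lt s p).map h) ∧
  (∀ w : List α, state lt' (w.map h) = (state lt w).map h)

/-- FLT: entries that are below nothing can be ignored; letters that are comparable with
nothing can be erased. -/
def ST_FLT : Prop := ∀ (α : Type) [DecidableEq α] (lt : α → α → Bool) (t : α),
  (∀ p, lt t p = false) →
  (∀ (s : List α) (p : α), outc lt s p = outc lt (s.filter (fun q => decide (q ≠ t))) p) ∧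
  (∀ (s : List α) (p : α), p ≠ t → (ins lt s p).filter (fun q => decide (q ≠ t)) =
    ins lt (s.filter (fun q => decide (q ≠ t))) p) ∧
  (∀ w : List α, (∀ p ∈ w, lt p t = false) →
    (state lt w).filter (fun q => decide (q ≠ t)) =
      state lt (w.filter (fun q => decide (q ≠ t))))

/-- The situation of `s` and its private cover `t`. -/
structure Priv {α : Type} (lt : α → α → Bool) (s t : α) : Prop where
  ne : s ≠ t
  top : ∀ p, lt t p = false
  bot : ∀ p, lt p s = false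
  cov : ∀ p, lt p t = true ↔ p = s

/-- Erase the letters `s` and `t`. -/
def del {α : Type} [DecidableEq α] (s t : α) (w : List α) : List α :=
  w.filter (fun q => decide (q ≠ s ∧ q ≠ t))

/-- Erase the letter `t`. -/
def del1 {α : Type} [DecidableEq α] (t : α) (w : List α) : List α :=
  w.filter (fun q => decide (q ≠ t))

/-- NR: the run without empty gaps: `s` is kept at the end. -/
def ST_NR : Prop := ∀ (α : Type) [DecidableEq α] (lt : α → α → Bool) (s t : α),
  Priv lt s t → ∀ (σ τ w : List α) (h : Bool),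
    del1 t σ = τ ++ (if h = true then [s] else []) → s ∉ τ → (h = true → s ∉ w) →
    w.count s ≤ 1 → nE (fun q => decide (q = t)) w = 0 →
    del1 t (run lt σ w) =
      run lt τ (del s t w) ++ (if h = true ∨ s ∈ w then [s] else [])

/-- DEC: words with at most one empty gap. -/
def ST_DEC : Prop := ∀ (α : Type) [DecidableEq α] (t : α) (w : List α),
  nE (fun q => decide (q = t)) w ≤ 1 →
  nE (fun q => decide (q = t)) w = 0 ∨
  (∃ w1 p, w = w1 ++ [p] ∧ p ≠ t ∧ nE (fun q => decide (q = t)) w1 = 0) ∨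
  (∃ w1 p q w3, w = w1 ++ p :: q :: t :: w3 ∧ p ≠ t ∧ q ≠ t ∧
    nE (fun q => decide (q = t)) w1 = 0 ∧ nE (fun q => decide (q = t)) w3 = 0)

/-- DE2: a given empty gap is the only one. -/
def ST_DE2 : Prop := ∀ (α : Type) [DecidableEq α] (t : α) (u v : List α) (p q : α),
  p ≠ t → q ≠ t → nE (fun q => decide (q = t)) (u ++ p :: q :: v) ≤ 1 →
  nE (fun q => decide (q = t)) u = 0 ∧
    ∃ w3, v = t :: w3 ∧ nE (fun q => decide (q = t)) w3 = 0

/-- MID: the run with exactly one empty gap, after `p`. -/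
def ST_MID : Prop := ∀ (α : Type) [DecidableEq α] (lt : α → α → Bool) (s t : α),
  Priv lt s t → ∀ (w1 w3 : List α) (p q : α),
    nE (fun q => decide (q = t)) w1 = 0 → nE (fun q => decide (q = t)) w3 = 0 →
    p ≠ t → q ≠ t → (w1 ++ p :: q :: t :: w3).count s = 1 →
    (¬ (s ∈ w1 ∧ lt s (outc lt (state lt (del s t w1)) p) = false ∧
        lt s (outc lt (upd lt (state lt (del s t w1)) p) q) = true ∧
        lt (outc lt (state lt (del s t w1)) p)
          (outc lt (upd lt (state lt (del s t w1)) p) q) = false) →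
      del1 t (state lt (w1 ++ p :: q :: t :: w3)) =
        state lt (del s t (w1 ++ p :: q :: t :: w3)) ++ [s]) ∧
    (s ∈ w1 → lt s (outc lt (state lt (del s t w1)) p) = false →
        lt s (outc lt (upd lt (state lt (del s t w1)) p) q) = true →
        lt (outc lt (state lt (del s t w1)) p)
          (outc lt (upd lt (state lt (del s t w1)) p) q) = false →
      del1 t (state lt (w1 ++ p :: q :: t :: w3)) =
        run lt (upd lt (upd lt (state lt (del s t w1)) p) q ++
          [outc lt (upd lt (state lt (del s t w1)) p) q,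
            outc lt (state lt (del s t w1)) p]) (del s t w3) ++ [s] ∧
      state lt (del s t (w1 ++ p :: q :: t :: w3)) =
        run lt (upd lt (upd lt (state lt (del s t w1)) p) q ++
          [outc lt (state lt (del s t w1)) p,
            outc lt (upd lt (state lt (del s t w1)) p) q]) (del s t w3))

/-- LST: the run with exactly one empty gap, the last one. -/
def ST_LST : Prop := ∀ (α : Type) [DecidableEq α] (lt : α → α → Bool) (s t : α),
  Priv lt s t → ∀ (w1 : List α) (p : α),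
    nE (fun q => decide (q = t)) w1 = 0 → p ≠ t → (w1 ++ [p]).count s = 1 →
    del1 t (state lt (w1 ++ [p])) = state lt (del s t (w1 ++ [p])) ++ [s] ∨
    (s ∈ w1 ∧ lt s (outc lt (state lt (del s t w1)) p) = false ∧
      del1 t (state lt (w1 ++ [p])) = upd lt (state lt (del s t w1)) p ++
        [s, outc lt (state lt (del s t w1)) p] ∧
      state lt (del s t (w1 ++ [p])) = upd lt (state lt (del s t w1)) p ++
        [outc lt (state lt (del s t w1)) p])

/-! ## Group C: classes of tokens -/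

/-- The tokens other than `x, y, f, g`. -/
def core (t : Tok) : Bool :=
  decide (t = .o ∨ t = .a ∨ t = .b ∨ t = .c ∨ t = .e ∨ t = .z)

/-- The class `{a, c}`. -/
def KK (t : Tok) : Bool := decide (t = .a ∨ t = .c)

/-- The class `{b}`. -/
def BB (t : Tok) : Bool := decide (t = .b)

/-- `o` occurs in `τ`, with no element of the class `S` before it. -/
def Rb (S : Tok → Bool) (τ : List Tok) : Bool :=
  decide (τ.find? (fun t => decide (t = .o) || S t) = some .o)

/-- The value of `Rb β` at the end, computed from the class of the letters only. -/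
def fin (α β : Tok → Bool) (μ : Tok) : Bool → Bool → Bool → Bool → List Tok → Bool
  | _, Rβ, _, _, [] => Rβ
  | Rα, Rβ, hα, hβ, p :: v =>
    if p = .o then fin α β μ (!hα) (!hβ) hα hβ v
    else if p = μ then
      (if Rα = true then fin α β μ false (!hβ) hα hβ v else fin α β μ false Rβ hα hβ v)
    else fin α β μ Rα Rβ (hα || α p) (hβ || β p) v

/-- CTR: one step, classes. -/
def ST_CTR : Prop := ∀ τ : List Tok, (∀ t ∈ τ, core t = true) →
  (∀ (p : Tok) (S : Tok → Bool), (p = .a ∨ p = .b ∨ p = .c) → (S = KK ∨ S = BB) →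
    Rb S (ins tlt τ p) = Rb S τ) ∧
  (∀ S : Tok → Bool, (S = KK ∨ S = BB) → Tok.o ∉ τ → Rb S (ins tlt τ .o) = !(τ.any S)) ∧
  (τ.count .o ≤ 1 →
    Rb KK (ins tlt τ .e) = if Rb BB τ = true then !(τ.any KK) else Rb KK τ) ∧
  (τ.count .o ≤ 1 →
    Rb BB (ins tlt τ .z) = if Rb KK τ = true then !(τ.any BB) else Rb BB τ)

/-- FV: the value at the end. -/
def ST_FV : Prop := ∀ (α β : Tok → Bool) (μ : Tok),
  ((α = BB ∧ β = KK ∧ μ = .e) ∨ (α = KK ∧ β = BB ∧ μ = .z)) →
  ∀ τ v : List Tok, (∀ t ∈ τ, core t = true) →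
    (∀ t ∈ v, t = .o ∨ t = .a ∨ t = .b ∨ t = .c ∨ t = μ) →
    v.count μ ≤ 1 → (τ ++ v).count .o ≤ 1 →
    Rb β (run tlt τ v) = fin α β μ (Rb α τ) (Rb β τ) (τ.any α) (τ.any β) v

/-- FF: facts on `fin`. -/
def ST_FF : Prop := ∀ (α β : Tok → Bool) (μ : Tok), μ ≠ .o → β μ = false →
  ∀ v : List Tok, Tok.o ∉ v →
    (∀ Rβ hα hβ, fin α β μ false Rβ hα hβ v = Rβ) ∧
    (∀ Rα hα Rβ hβ, (hβ = false → Rβ = true) → fin α β μ Rα Rβ hα hβ v = true → Rβ = true) ∧
    (∀ Rβ hα, μ ∈ v → fin α β μ true Rβ hα true v = false) ∧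
    (∀ Rβ hα hβ v1 v2 t, v = v1 ++ t :: v2 → μ ∉ v1 → t ≠ μ → β t = true → μ ∈ v2 →
      fin α β μ true Rβ hα hβ v = false)

/-- SWP: the effect of exchanging the last two entries. -/
def ST_SWP : Prop := ∀ (S : Tok → Bool) (τ : List Tok) (r r' : Tok), S Tok.o = false →
  r ≠ .o →
  (r' ≠ .o → Rb S (τ ++ [r', r]) = Rb S (τ ++ [r, r'])) ∧
  (r' = .o → Tok.o ∉ τ → Rb S (τ ++ [r', r]) = !(τ.any S) ∧
    Rb S (τ ++ [r, r']) = (!(τ.any S) && !(S r)))

/-- TZE: the last path. -/
def ST_TZE : Prop := ∀ τ : List Tok, (∀ t ∈ τ, core t = true) →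
  (Rb KK τ = true → outc tlt τ .z = .o) ∧
  (Rb BB τ = true → outc tlt τ .e = .o) ∧
  (Tok.o ∈ τ → Tok.a ∈ τ → Rb KK τ = false → outc tlt τ .z = .a) ∧
  (Tok.o ∈ τ → Rb BB τ = false → outc tlt τ .e = .b) ∧
  (Tok.a ∈ τ → outc tlt τ .c = .a)

/-- CIN: which letter can have the last carry `a` or `b` or `o`. -/
def ST_CIN : Prop := ∀ (τ : List Tok) (p : Tok), (∀ t ∈ τ, core t = true) → core p = true →
  (p ≠ .z → outc tlt τ p = .a → p = .a ∨ p = .c) ∧
  (p ≠ .e → outc tlt τ p = .b → p = .b) ∧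
  (outc tlt τ p = .o → p = .o ∨ p = .e ∨ p = .z) ∧
  (outc tlt τ p = .a → p = .c → Tok.c ∈ upd tlt τ p)

/-! ## Group M: the process on the words of `P - y - l` and `P - x - l` -/

/-- The word is bad for `y` and good for `x` in the unperturbed process. -/
def SR (S : Tok → Bool) (w : List Tok) : Prop := Rb S (state tlt (w.filter core)) = true

/-- Costs, server `z`. -/
def costz (w : List Tok) : Prop := ∃ u v,
  (w = u ++ Tok.a :: Tok.o :: v ∨ w = u ++ Tok.a :: Tok.e :: v) ∧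
    Tok.x ∈ u ∧ Tok.a ∉ u ∧ Tok.c ∉ u

/-- Costs, server `e`. -/
def coste (w : List Tok) : Prop := ∃ u v,
  ((w = u ++ Tok.b :: Tok.o :: v ∧ ∃ t ∈ u, t = Tok.z ∨ t = Tok.a ∨ t = Tok.c) ∨
    (w = u ++ Tok.b :: Tok.z :: v ∧ Tok.o ∈ u)) ∧ Tok.x ∈ u ∧ Tok.b ∉ u

/-- Gains, server `z`. -/
def gainz (w : List Tok) : Prop := ∃ u v, w = u ++ Tok.b :: Tok.o :: v ∧
  del1 Tok.f u = [Tok.x] ∧ ∃ v1 v2, v = v1 ++ Tok.a :: v2 ∧ Tok.e ∉ v1

/-- PYZ: words of `P - y - z`. -/
def ST_PYZ : Prop := ∀ w : List Tok, Tok.y ∉ w → Tok.z ∉ w → w.count .x = 1 →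
  w.count .o = 1 → w.count .e = 1 → w.count .a = 2 →
  nE (fun q => decide (q = Tok.f)) (del1 .g w) ≤ 1 →
  (¬ SR KK w → ¬ costz (del1 .g w) → tlt .y (outc tlt (state tlt w) .z) = true) ∧
  (gainz (del1 .g w) → SR KK w ∧ tlt .y (outc tlt (state tlt w) .z) = true)

/-- PYE: words of `P - y - e`. -/
def ST_PYE : Prop := ∀ w : List Tok, Tok.y ∉ w → Tok.e ∉ w → w.count .x = 1 →
  w.count .o = 1 → w.count .z = 1 →
  nE (fun q => decide (q = Tok.f)) (del1 .g w) ≤ 1 →
  (¬ SR BB w → ¬ coste (del1 .g w) → tlt .y (outc tlt (state tlt w) .e) = true)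

/-- PYC: words of `P - y - c`. -/
def ST_PYC : Prop := ∀ w : List Tok, Tok.y ∉ w → w.count .x = 1 → w.count .a = 2 →
  nE (fun q => decide (q = Tok.f)) (del1 .g w) ≤ 1 →
  tlt .y (outc tlt (state tlt w) .c) = true

/-- PXS: words of `P - x - z` and `P - x - e`. -/
def ST_PXS : Prop := ∀ w : List Tok, Tok.x ∉ w → w.count .y = 1 →
  nE (fun q => decide (q = Tok.g)) (del1 .f w) = 0 →
  (SR KK w → tlt .x (outc tlt (state tlt w) .z) = true) ∧
  (SR BB w → tlt .x (outc tlt (state tlt w) .e) = true)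

/-! ## Group S: servers -/

/-- The alphabet `P - u - l`. -/
def Al (B M K K' : ℕ) (u l : El B M K K') : Finset (El B M K K') :=
  Finset.univ \ {u, l}

/-- The alphabet `P - u - l` without the elements of kind `t`. -/
def Am (B M K K' : ℕ) (u l : El B M K K') (t : Tok) : Finset (El B M K K') :=
  (Finset.univ \ {u, l}).filter (fun p => decide (tk p ≠ t))

/-- The sum of the two proportions of the server `l`. -/
noncomputable def sv (B M K K' : ℕ) (l : El B M K K') : ℝ :=
  pr (Finset.univ \ {eX B M K K', l}) (fun w =>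
    elt B M K K' (eX B M K K') (outc (elt B M K K') (state (elt B M K K') w) l) = true) +
  pr (Finset.univ \ {eY B M K K', l}) (fun w =>
    elt B M K K' (eY B M K K') (outc (elt B M K K') (state (elt B M K K') w) l) = true)

/-- The proportion of the words of `P - y - l` (without `g`'s) with two empty gaps. -/
noncomputable def e2 (B M K K' : ℕ) (l : El B M K K') : ℝ :=
  pr (Am B M K K' (eY B M K K') l .g)
    (fun w => 2 ≤ nE (fun q => decide (q = Tok.f)) (w.map tk))

/-- The proportion of the words of `P - x - l` (without `f`'s) with an empty gap. -/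
noncomputable def e1 (B M K K' : ℕ) (l : El B M K K') : ℝ :=
  pr (Am B M K K' (eX B M K K') l .f)
    (fun w => 1 ≤ nE (fun q => decide (q = Tok.g)) (w.map tk))

/-- CT: the number of letters of each kind. -/
def ST_CT : Prop := ∀ (B M K K' : ℕ) (u l : El B M K K'), u ≠ l →
  ∀ w ∈ Wd (Finset.univ \ {u, l}), ∀ t : Tok,
    (w.map tk).count t = cnt B M K K' t - (if tk u = t then 1 else 0) -
      (if tk l = t then 1 else 0)

/-- TRV: the servers of the kinds `o, f, a, b, g`. -/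
def ST_TRV : Prop := ∀ (B M K K' : ℕ) (l : El B M K K'),
  (tk l = .o ∨ tk l = .f ∨ tk l = .a ∨ tk l = .b ∨ tk l = .g) → 1 ≤ sv B M K K' l

/-- SVC: the servers of kind `c`. -/
def ST_SVC : Prop := ∀ (B M K K' : ℕ) (l : El B M K K'), tk l = .c →
  1 - e2 B M K K' l ≤ sv B M K K' l

/-- SVE: the server `e`. -/
def ST_SVE : Prop := ∀ (B M K K' : ℕ),
  1 - pr (Am B M K K' (eY B M K K') (eE B M K K') .g) (fun w => coste (w.map tk)) -
    e2 B M K K' (eE B M K K') - e1 B M K K' (eE B M K K') ≤ sv B M K K' (eE B M K K')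

/-- SVZ: the server `z`. -/
def ST_SVZ : Prop := ∀ (B M K K' : ℕ),
  1 + pr (Am B M K K' (eY B M K K') (eZ B M K K') .g) (fun w => gainz (w.map tk)) -
    pr (Am B M K K' (eY B M K K') (eZ B M K K') .g) (fun w => costz (w.map tk)) -
    2 * e2 B M K K' (eZ B M K K') - e1 B M K K' (eZ B M K K') ≤ sv B M K K' (eZ B M K K')

/-- CZ: the cost of `z`. -/
def ST_CZ : Prop := ∀ (B M K K' : ℕ),
  pr (Am B M K K' (eY B M K K') (eZ B M K K') .g) (fun w => costz (w.map tk)) ≤
    4 / (((B : ℝ) + M + 5 + K) * ((M + 2) * (M + 3)))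

/-- CE: the cost of `e`. -/
def ST_CE : Prop := ∀ (B M K K' : ℕ), 1 ≤ B →
  pr (Am B M K K' (eY B M K K') (eE B M K K') .g) (fun w => coste (w.map tk)) ≤
    (2 * ((M : ℝ) + 4)) / (((B : ℝ) + M + 5 + K) * ((B + 1) * (B + 2)))

/-- GZ: the gain of `z`. -/
def ST_GZ : Prop := ∀ (B M K K' : ℕ), 1 ≤ B →
  (B : ℝ) / (2 * ((B : ℝ) + M + 5 + K) * ((B + M + 4) * (B + M + 3))) ≤
    pr (Am B M K K' (eY B M K K') (eZ B M K K') .g) (fun w => gainz (w.map tk))

/-- EB: the error terms. -/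
def ST_EB : Prop := ∀ (B M K K' : ℕ) (l : El B M K K'), (tk l = .e ∨ tk l = .z ∨ tk l = .c) →
  e2 B M K K' l ≤ ((B : ℝ) + M + 5) ^ 4 /
    (((B : ℝ) + M + 5 + K) * ((B : ℝ) + M + 4 + K)) ∧
  e1 B M K K' l ≤ ((B : ℝ) + M + 5) ^ 2 / ((B : ℝ) + M + 5 + K')

/-! ## Group F: the poset and the conclusion -/

/-- POS: the poset. -/
def ST_POS : Prop := ∀ (B M K K' : ℕ),
  (∀ p q : El B M K K', elt B M K K' p q = true ↔ p < q) ∧
  Fintype.card (El B M K K') = B + M + K + K' + 7 ∧
  (∀ p : El B M K K', IsMin p ↔ p = eX B M K K' ∨ p = eY B M K K')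

/-- CON: the Hasse diagram is connected. -/
def ST_CON : Prop := ∀ (B M K K' : ℕ), 1 ≤ M → (SimpleGraph.hasse (El B M K K')).Connected

/-- SUM: the sum of the servers. -/
def ST_SUM : Prop := ∀ (B M K K' : ℕ), 1 ≤ B → 1 ≤ M →
  ((B : ℝ) + 2 + 1 + K + K') + ((M : ℝ) + 2) +
    ((B : ℝ) / (2 * ((B : ℝ) + M + 5 + K) * ((B + M + 4) * (B + M + 3))) -
      4 / (((B : ℝ) + M + 5 + K) * ((M + 2) * (M + 3))) -
      (2 * ((M : ℝ) + 4)) / (((B : ℝ) + M + 5 + K) * ((B + 1) * (B + 2)))) -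
    ((M : ℝ) + 3) * (((B : ℝ) + M + 5) ^ 4 /
      (((B : ℝ) + M + 5 + K) * ((B : ℝ) + M + 4 + K))) -
    ((M : ℝ) + 2) * (((B : ℝ) + M + 5) ^ 2 / ((B : ℝ) + M + 5 + K')) ≤
  ∑ l ∈ Finset.univ \ {eX B M K K', eY B M K K'}, sv B M K K' l

/-- NUM: the numerical inequality. -/
def ST_NUM : Prop := ∃ (B M K K' : ℕ), 1 ≤ B ∧ 1 ≤ M ∧
  0 < ((B : ℝ) / (2 * ((B : ℝ) + M + 5 + K) * ((B + M + 4) * (B + M + 3))) -
      4 / (((B : ℝ) + M + 5 + K) * ((M + 2) * (M + 3))) -
      (2 * ((M : ℝ) + 4)) / (((B : ℝ) + M + 5 + K) * ((B + 1) * (B + 2)))) -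
    ((M : ℝ) + 3) * (((B : ℝ) + M + 5) ^ 4 /
      (((B : ℝ) + M + 5 + K) * ((B : ℝ) + M + 4 + K))) -
    ((M : ℝ) + 2) * (((B : ℝ) + M + 5) ^ 2 / ((B : ℝ) + M + 5 + K'))

/-- The result: the negation of Q1, with `s = 2`. -/
def ST_RES : Prop := ∃ (P : Type) (_ : Fintype P) (_ : PartialOrder P),
  2 ≤ Fintype.card P ∧ (SimpleGraph.hasse P).Connected ∧
    Set.ncard {p : P | IsMin p} = 2 ∧
    (Fintype.card P - 2) * (Fintype.card P - 2).factorial < numTangled P

end Pool.Agent.Helper8.TNG
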